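import Pool.Agent.Helper86.AG.N

/-!
# AG-N: the grid of good points near the zeros of `κ`
-/

open MeasureTheory Real Set Filter Topology

set_option autoImplicit false

namespace Pool.Agent.Helper92.AG

open Pool.Agent.Helper22.AE
open Pool.Agent.Helper60.LT (Fr Tf xf yf df vf fr fr_meas sl Cv Hom)
open Pool.Agent.Helper60.QL (R3)
open Pool.Agent.Helper3.AC

/-- `κ` is Lipschitz -/
theorem ka_lip {c₁ B₀ : ℝ} {h : ℝ × ℝ → ℝ} (hh : HG c₁ B₀ h) (θ θ' : ℝ) : |ka h θ - ka h θ'| ≤ B₀ * |θ - θ'| := by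
  have := Convex.norm_image_sub_le_of_norm_deriv_le (f := ka h) (C := B₀) (s := univ) (x := θ') (y := θ) (fun x _ => hh.kd x)
    (fun x _ => by rw [Real.norm_eq_abs]; exact hh.k1 x) convex_univ (mem_univ _) (mem_univ _)
  rwa [Real.norm_eq_abs, Real.norm_eq_abs] at this

/-- near the zeros of `κ`: finitely many good points -/
theorem grid {c₁ B₀ : ℝ} (hc : 0 < c₁) (hB₀ : 1 ≤ B₀) : ∃ c r κ₁ : ℝ, ∃ N : ℕ, 0 < c ∧ 0 < r ∧ r ≤ 1 ∧ 0 < κ₁ ∧
    ∀ h : ℝ × ℝ → ℝ, HG c₁ B₀ h → ∃ (J : Finset ℕ) (z σ : ℕ → ℝ), J.card ≤ N ∧ (∀ j ∈ J, Gd c r (z j) (σ j) h) ∧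
      ∀ θ ∈ Ioc (-π) π, |ka h θ| ≤ κ₁ → ∃ j ∈ J, |θ - z j| ≤ r := by
  have hB : 0 < B₀ := by linarith
  obtain ⟨c, hcd⟩ : ∃ c, c = c₁ / 4 := ⟨_, rfl⟩
  have hc0 : 0 < c := by rw [hcd]; positivity
  obtain ⟨r, hrd⟩ : ∃ r, r = min 1 (c / B₀) := ⟨_, rfl⟩
  have hr0 : 0 < r := by
    rw [hrd]
    exact lt_min one_pos (by positivity)
  have hr1 : r ≤ 1 := by rw [hrd]; exact min_le_left _ _
  have hrB : B₀ * r ≤ c := by
    have : r ≤ c / B₀ := by rw [hrd]; exact min_le_right _ _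
    rw [le_div_iff₀ hB] at this
    linarith
  obtain ⟨d, hd⟩ : ∃ d, d = r * c / (4 * (B₀ + c)) := ⟨_, rfl⟩
  have hd0 : 0 < d := by rw [hd]; positivity
  have hdB : B₀ * d ≤ c * r / 4 := by
    rw [hd, ← mul_div_assoc, div_le_div_iff₀ (by positivity) (by norm_num)]
    have h1 : 0 < r * c * c := by positivity
    nlinarith
  have hdr : d ≤ r := by
    rw [hd, div_le_iff₀ (by positivity)]
    have h1 : 0 < r * B₀ := by positivity
    have h2 : 0 < r * c := by positivity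
    nlinarith
  refine ⟨c, r, c * r / 4, ⌊8 / d⌋₊ + 1, hc0, hr0, hr1, by positivity, fun h hh => ?_⟩
  classical
  obtain ⟨z, hz⟩ : ∃ z : ℕ → ℝ, z = fun j : ℕ => -4 + (j : ℝ) * d := ⟨_, rfl⟩
  obtain ⟨σ, hσ⟩ : ∃ σ : ℕ → ℝ, σ = fun j => if 0 ≤ deriv (ka h) (z j) then 1 else -1 := ⟨_, rfl⟩
  refine ⟨(Finset.range (⌊8 / d⌋₊ + 1)).filter fun j => |z j| ≤ 4 ∧ |ka h (z j)| ≤ c * r / 2, z, σ, ?_, ?_, ?_⟩
  · exact (Finset.card_filter_le _ _).trans (by rw [Finset.card_range])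
  · intro j hj
    rw [Finset.mem_filter] at hj
    obtain ⟨-, h4, h5⟩ := hj
    have hs : σ j = 1 ∨ σ j = -1 := by
      rw [hσ]
      simp only
      split_ifs
      · exact Or.inl rfl
      · exact Or.inr rfl
    have habs : σ j * deriv (ka h) (z j) = |deriv (ka h) (z j)| := by
      rw [hσ]
      simp only
      split_ifs with h0
      · rw [one_mul, abs_of_nonneg h0]
      · push Not at h0
        rw [neg_one_mul, abs_of_neg h0]
    refine ⟨hs, h4, h5, fun θ hθ => ?_⟩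
    have h6 := hh.nd (z j)
    have h7 : c * r / 2 ≤ c / 2 := by
      have := mul_le_mul_of_nonneg_left hr1 hc0.le
      linarith
    have h8 : |deriv (ka h) θ - deriv (ka h) (z j)| ≤ c := by
      calc |deriv (ka h) θ - deriv (ka h) (z j)| ≤ B₀ * |θ - z j| := hh.k2 _ _
        _ ≤ B₀ * r := by gcongr
        _ ≤ c := hrB
    have h9 := abs_le.1 h8
    have h10 : σ j * deriv (ka h) (z j) - c ≤ σ j * deriv (ka h) θ := by
      rcases hs with h0 | h0 <;> rw [h0] <;> linarith [h9.1, h9.2]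
    rw [habs] at h10
    linarith
  · intro θ hθ hk
    have hπ : π < 4 := by
      have := Real.pi_lt_d2
      linarith
    have h0 : 0 ≤ (θ + 4) / d := by
      have : 0 ≤ θ + 4 := by linarith [hθ.1]
      positivity
    obtain ⟨j, hj⟩ : ∃ j, j = ⌊(θ + 4) / d⌋₊ := ⟨_, rfl⟩
    have h1 : (j : ℝ) * d ≤ θ + 4 := by
      have := Nat.floor_le h0
      rw [← hj, le_div_iff₀ hd0] at this
      exact this
    have h2 : θ + 4 < (j + 1 : ℝ) * d := by
      have := Nat.lt_floor_add_one ((θ + 4) / d)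
      rw [← hj, div_lt_iff₀ hd0] at this
      exact this
    have hzj : z j = -4 + j * d := by rw [hz]
    have hj0 : (0 : ℝ) ≤ j * d := by positivity
    have h3 : |θ - z j| ≤ d := by
      rw [hzj, abs_le]
      constructor <;> linarith
    have h4 : |z j| ≤ 4 := by
      rw [hzj, abs_le]
      constructor <;> linarith [hθ.2]
    have h5 : |ka h (z j)| ≤ c * r / 2 := by
      have e : ka h (z j) = ka h θ + (ka h (z j) - ka h θ) := by ring
      rw [e]
      calc |ka h θ + (ka h (z j) - ka h θ)| ≤ |ka h θ| + |ka h (z j) - ka h θ| := abs_add_le _ _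
        _ ≤ c * r / 4 + B₀ * |z j - θ| := add_le_add hk (ka_lip hh _ _)
        _ ≤ c * r / 4 + B₀ * d := by
          rw [abs_sub_comm (z j) θ]
          gcongr
        _ ≤ c * r / 2 := by linarith
    refine ⟨j, ?_, h3.trans hdr⟩
    rw [Finset.mem_filter, Finset.mem_range]
    refine ⟨?_, h4, h5⟩
    have : j ≤ ⌊8 / d⌋₊ := by
      rw [hj]
      refine Nat.floor_le_floor ?_
      gcongr
      linarith [hθ.2]
    omega

end Pool.Agent.Helper92.AG
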