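import Pool.Agent.Helper92.AG.Defs
import Pool.Agent.Helper60.AC.Meas

/-!
# AG-N: measurability of the moments, enlargement of the regions
-/

open MeasureTheory Real Set Filter Topology

set_option autoImplicit false

namespace Pool.Agent.Helper92.AG

open Pool.Agent.Helper22.AE
open Pool.Agent.Helper92.GC (dt tp Tq uu tt arc dd)
open Pool.Agent.Helper75.TW (m20)
open Pool.Agent.Helper60.LT (Fr Tf xf yf df vf fr fr_meas sl Cv Hom)
open Pool.Agent.Helper60.QL (R3)
open Pool.Agent.Helper3.AC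

theorem lip_cont {f : ℝ → ℝ} {B : ℝ} (h : ∀ θ θ', |f θ - f θ'| ≤ B * |θ - θ'|) : Continuous f :=
  (LipschitzWith.of_dist_le_mul (K := B.toNNReal) fun θ θ' => by
    rw [Real.dist_eq, Real.dist_eq]
    refine (h θ θ').trans ?_
    rw [Real.coe_toNNReal']
    exact mul_le_mul_of_nonneg_right (le_max_left _ _) (abs_nonneg _)).continuous

theorem qf_mes {c₁ B₀ : ℝ} {h : ℝ × ℝ → ℝ} (hh : HG c₁ B₀ h) (t₀ : ℝ) (S : Finset (ℤ × ℤ)) :
    Measurable (fun q : ℝ × R3 => qf h q.1 t₀ S q.2) := by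
  have h2 : Measurable (p2 h) := (lip_cont hh.p2l).measurable
  have h3 : Measurable (be h) := (lip_cont hh.bel).measurable
  have h4 : Measurable (ka h) := hh.kd.continuous.measurable
  have hy : Measurable (fun q : ℝ × R3 => yA (ka h q.1) q.2) := by
    unfold yA
    fun_prop
  have hT : Measurable (fun q : ℝ × R3 => TA (p2 h q.1) (ka h q.1) q.2) := by
    unfold TA
    exact (measurable_snd.fst.const_mul 2).div ((h2.comp measurable_fst).mul (hy.pow_const 2))
  have hx : Measurable (fun q : ℝ × R3 => xA (be h q.1) (ka h q.1) q.2) := by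
    unfold xA
    have h5 : Measurable (fun q : ℝ × R3 => -(q.2.2.1 / q.2.1)) := by fun_prop
    exact h5.add ((h3.comp measurable_fst).mul hy)
  have hf : Measurable (fun q : ℝ × R3 => fA h q.1 q.2) := fr_meas.comp (measurable_fst.prodMk (hy.prodMk (hT.prodMk hx)))
  exact (mf_meas hh.hom t₀ S).comp hf

theorem th_meas {h : ℝ × ℝ → ℝ} {z r σ : ℝ} (hr : 0 < r) (hσ : σ = 1 ∨ σ = -1) : Measurable (th h z r σ) := by
  have key : ∀ v v' : ℝ, σ * v ≤ σ * v' → th h z r σ v ≤ th h z r σ v' := by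
    intro v v' hv
    unfold th
    refine csInf_le_csInf ⟨z - r, ?_⟩ ⟨z + r, Or.inr rfl⟩ ?_
    · rintro θ (h1 | h1)
      · exact h1.1
      · rw [h1]
        linarith
    · rintro θ (h1 | h1)
      · exact Or.inl ⟨h1.1, h1.2.1, hv.trans h1.2.2⟩
      · exact Or.inr h1
  rcases hσ with rfl | rfl
  · exact Monotone.measurable fun v v' hv => key v v' (by linarith)
  · exact Antitone.measurable fun v v' hv => key v' v (by linarith)

theorem qz_mes {c₁ B₀ : ℝ} {h : ℝ × ℝ → ℝ} (hh : HG c₁ B₀ h) {z r σ : ℝ} (hr : 0 < r) (hσ : σ = 1 ∨ σ = -1) (t₀ : ℝ) (S : Finset (ℤ × ℤ)) :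
    Measurable (fun q : ℝ × R3 => qz h z r σ q.1 t₀ S q.2) := by
  have h2 : Measurable (p2 h) := (lip_cont hh.p2l).measurable
  have h3 : Measurable (be h) := (lip_cont hh.bel).measurable
  have hv : Measurable (fun q : ℝ × R3 => vA q.1 q.2) := by
    unfold vA
    fun_prop
  have ht : Measurable (fun q : ℝ × R3 => tA h z r σ q.1 q.2) := (th_meas hr hσ).comp hv
  have hT : Measurable (fun q : ℝ × R3 => TZ h z r σ q.1 q.2) := by
    unfold TZ
    exact (measurable_snd.fst.const_mul 2).div ((h2.comp ht).mul (measurable_fst.pow_const 2))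
  have hx : Measurable (fun q : ℝ × R3 => xZ h z r σ q.1 q.2) := by
    unfold xZ
    have h5 : Measurable (fun q : ℝ × R3 => -(q.2.2.1 / q.2.1)) := by fun_prop
    exact h5.add ((h3.comp ht).mul measurable_fst)
  have hf : Measurable (fun q : ℝ × R3 => fZ h z r σ q.1 q.2) := fr_meas.comp (ht.prodMk (measurable_fst.prodMk (hT.prodMk hx)))
  exact (mf_meas hh.hom t₀ S).comp hf

/-- the coordinates of near points -/
theorem near_bd {A A' : R3} {δ : ℝ} (h : dist A A' ≤ δ) : |A'.1 - A.1| ≤ δ ∧ |A'.2.1 - A.2.1| ≤ δ ∧ |A'.2.2 - A.2.2| ≤ δ := by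
  rw [dist_comm, Prod.dist_eq, Prod.dist_eq, max_le_iff, max_le_iff, Real.dist_eq, Real.dist_eq, Real.dist_eq] at h
  exact ⟨h.1, h.2.1, h.2.2⟩

/-- the discriminants of near points -/
theorem disc_bd {a b c a' b' c' B X δ : ℝ} (hB : 1 ≤ B) (hX : 0 < X) (hδ : δ ≤ B * X) (ha0 : 0 < a) (ha : a ≤ B * X) (hb : |b| ≤ B * X) (hc : |c| ≤ B * X)
    (h1 : |a' - a| ≤ δ) (h2 : |b' - b| ≤ δ) (h3 : |c' - c| ≤ δ) : |(b' ^ 2 - c' * a') - (b ^ 2 - c * a)| ≤ 6 * B * X * δ := by
  have hBX : 0 < B * X := by positivity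
  have hδ0 : 0 ≤ δ := (abs_nonneg _).trans h1
  have g1 : |b' + b| ≤ 3 * B * X := by
    have e : b' + b = (b' - b) + 2 * b := by ring
    rw [e]
    calc |(b' - b) + 2 * b| ≤ |b' - b| + |2 * b| := abs_add_le _ _
      _ = |b' - b| + 2 * |b| := by rw [abs_mul, abs_of_pos (show (0 : ℝ) < 2 by norm_num)]
      _ ≤ 3 * B * X := by linarith
  have g2 : |a'| ≤ 2 * B * X := by
    have e : a' = (a' - a) + a := by ring
    rw [e]
    calc |(a' - a) + a| ≤ |a' - a| + |a| := abs_add_le _ _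
      _ = |a' - a| + a := by rw [abs_of_pos ha0]
      _ ≤ 2 * B * X := by linarith
  have e : (b' ^ 2 - c' * a') - (b ^ 2 - c * a) = (b' - b) * (b' + b) + (-((c' - c) * a') + -(c * (a' - a))) := by ring
  rw [e]
  calc |(b' - b) * (b' + b) + (-((c' - c) * a') + -(c * (a' - a)))| ≤ |(b' - b) * (b' + b)| + (|-((c' - c) * a')| + |-(c * (a' - a))|) :=
        (abs_add_le _ _).trans (by gcongr; exact abs_add_le _ _)
    _ = |b' - b| * |b' + b| + (|c' - c| * |a'| + |c| * |a' - a|) := by rw [abs_neg, abs_neg, abs_mul, abs_mul, abs_mul]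
    _ ≤ δ * (3 * B * X) + (δ * (2 * B * X) + B * X * δ) := by gcongr
    _ = 6 * B * X * δ := by ring

theorem OS_near {B : ℝ} (hB : 1 ≤ B) : ∃ g : ℝ, 0 < g ∧ ∀ (s X : ℝ) (A A' : R3), (s = 1 ∨ s = -1) → 0 < X → A ∈ OS s B X → dist A A' ≤ g * X → A' ∈ OS s (2 * B) X := by
  have hB0 : 0 < B := by linarith
  have hB2 : 1 ≤ B ^ 2 := one_le_pow₀ hB
  refine ⟨1 / (16 * B ^ 2), by positivity, fun s X A A' hs hX hA hd => ?_⟩
  obtain ⟨a, b, c⟩ := A
  obtain ⟨a', b', c'⟩ := A'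
  obtain ⟨h1, h2, h3⟩ := near_bd hd
  obtain ⟨k1, k2, k3, k4, k5⟩ := hA
  simp only at h1 h2 h3 k1 k2 k3 k4 k5
  obtain ⟨δ, hδ⟩ : ∃ δ, δ = 1 / (16 * B ^ 2) * X := ⟨_, rfl⟩
  rw [← hδ] at h1 h2 h3
  have hδ0 : 0 < δ := by rw [hδ]; positivity
  have hδ16 : 16 * B ^ 2 * δ = X := by
    rw [hδ]
    field_simp
  have hBδ : B * δ ≤ B ^ 2 * δ := by
    have : B ≤ B ^ 2 := le_self_pow₀ hB (by norm_num)
    gcongr
  have hδ1 : δ ≤ B * δ := by
    have := mul_le_mul_of_nonneg_right hB hδ0.le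
    linarith
  have hXB : X ≤ B * X := by
    have := mul_le_mul_of_nonneg_right hB hX.le
    linarith
  have hδX : δ ≤ B * X := by linarith
  have ha : 0 < a := by
    by_contra hcon
    push Not at hcon
    have : B * a ≤ 0 := mul_nonpos_of_nonneg_of_nonpos hB0.le hcon
    linarith
  have hdd := disc_bd hB hX hδX ha k2 k3 k4 h1 h2 h3
  rw [abs_le] at h1 hdd
  have hs1 : |s| = 1 := by
    rcases hs with rfl | rfl
    · exact abs_one
    · rw [abs_neg, abs_one]
  refine ⟨?_, ?_, ?_, ?_, ?_⟩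
  · show X ≤ 2 * B * a'
    have : 2 * B * a ≤ 2 * B * (a' + δ) := by gcongr; linarith
    have e : 2 * B * (a' + δ) = 2 * B * a' + 2 * (B * δ) := by ring
    have e2 : 2 * B * a = 2 * (B * a) := by ring
    linarith
  · show a' ≤ 2 * B * X
    linarith
  · show |b'| ≤ 2 * B * X
    have e : b' = (b' - b) + b := by ring
    rw [e]
    calc |(b' - b) + b| ≤ |b' - b| + |b| := abs_add_le _ _
      _ ≤ 2 * B * X := by linarith
  · show |c'| ≤ 2 * B * X
    have e : c' = (c' - c) + c := by ring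
    rw [e]
    calc |(c' - c) + c| ≤ |c' - c| + |c| := abs_add_le _ _
      _ ≤ 2 * B * X := by linarith
  · show X ^ 2 ≤ 2 * B * (s * (b' ^ 2 - c' * a'))
    have g1 : s * (b ^ 2 - c * a) ≤ s * (b' ^ 2 - c' * a') + 6 * B * X * δ := by
      rcases hs with rfl | rfl <;> linarith [hdd.1, hdd.2]
    have g2 : 12 * B ^ 2 * X * δ ≤ X ^ 2 := by
      calc 12 * B ^ 2 * X * δ ≤ 16 * B ^ 2 * X * δ := by gcongr; norm_num
        _ = X * (16 * B ^ 2 * δ) := by ring
        _ = X ^ 2 := by rw [hδ16]; ring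
    have g3 : B * (s * (b ^ 2 - c * a)) ≤ B * (s * (b' ^ 2 - c' * a') + 6 * B * X * δ) := by gcongr
    have e : B * (s * (b' ^ 2 - c' * a') + 6 * B * X * δ) = B * (s * (b' ^ 2 - c' * a')) + (12 * B ^ 2 * X * δ) / 2 := by ring
    have e2 : 2 * B * (s * (b' ^ 2 - c' * a')) = 2 * (B * (s * (b' ^ 2 - c' * a'))) := by ring
    linarith

theorem OZ_near {B e : ℝ} (hB : 1 ≤ B) (he : 0 < e) (he1 : e ≤ 1) : ∃ g : ℝ, 0 < g ∧ ∀ (X : ℝ) (A A' : R3), 0 < X → A ∈ OZ B e X → dist A A' ≤ g * X → A' ∈ OZ (2 * B) (2 * e) X := by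
  have hB0 : 0 < B := by linarith
  have hB2 : B ≤ B ^ 3 := le_self_pow₀ hB (by norm_num)
  refine ⟨e / (16 * B ^ 3), by positivity, fun X A A' hX hA hd => ?_⟩
  obtain ⟨a, b, c⟩ := A
  obtain ⟨a', b', c'⟩ := A'
  obtain ⟨h1, h2, h3⟩ := near_bd hd
  obtain ⟨k1, k2, k3, k4, k5⟩ := hA
  simp only at h1 h2 h3 k1 k2 k3 k4 k5
  obtain ⟨δ, hδ⟩ : ∃ δ, δ = e / (16 * B ^ 3) * X := ⟨_, rfl⟩
  rw [← hδ] at h1 h2 h3
  have hδ0 : 0 < δ := by rw [hδ]; positivity
  have hδ16 : 16 * B ^ 3 * δ = e * X := by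
    rw [hδ]
    field_simp
  have hBδ : B * δ ≤ B ^ 3 * δ := by gcongr
  have hδ1 : δ ≤ B * δ := by
    have := mul_le_mul_of_nonneg_right hB hδ0.le
    linarith
  have hXB : X ≤ B * X := by
    have := mul_le_mul_of_nonneg_right hB hX.le
    linarith
  have heX : e * X ≤ X := by
    have := mul_le_mul_of_nonneg_right he1 hX.le
    linarith
  have hδX : δ ≤ B * X := by linarith
  have ha : 0 < a := by
    by_contra hcon
    push Not at hcon
    have : B * a ≤ 0 := mul_nonpos_of_nonneg_of_nonpos hB0.le hcon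
    linarith
  have hdd := disc_bd hB hX hδX ha k2 k3 k4 h1 h2 h3
  rw [abs_le] at h1 hdd k5
  refine ⟨?_, ?_, ?_, ?_, ?_⟩
  · show X ≤ 2 * B * a'
    have : 2 * B * a ≤ 2 * B * (a' + δ) := by gcongr; linarith
    have e1 : 2 * B * (a' + δ) = 2 * B * a' + 2 * (B * δ) := by ring
    have e2 : 2 * B * a = 2 * (B * a) := by ring
    linarith
  · show a' ≤ 2 * B * X
    linarith
  · show |b'| ≤ 2 * B * X
    have e1 : b' = (b' - b) + b := by ring
    rw [e1]
    calc |(b' - b) + b| ≤ |b' - b| + |b| := abs_add_le _ _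
      _ ≤ 2 * B * X := by linarith
  · show |c'| ≤ 2 * B * X
    have e1 : c' = (c' - c) + c := by ring
    rw [e1]
    calc |(c' - c) + c| ≤ |c' - c| + |c| := abs_add_le _ _
      _ ≤ 2 * B * X := by linarith
  · show |b' ^ 2 - c' * a'| ≤ 2 * e * a' ^ 2
    have g1 : 16 * δ ≤ e * a := by
      have : 16 * B * δ ≤ e * (B * a) := by
        calc 16 * B * δ = 16 * (B * δ) := by ring
          _ ≤ 16 * (B ^ 3 * δ) := by gcongr
          _ = e * X := by rw [← hδ16]; ring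
          _ ≤ e * (B * a) := by gcongr
      have e1 : B * (16 * δ) ≤ B * (e * a) := by linarith
      exact le_of_mul_le_mul_left e1 hB0
    have g2 : 6 * B * X * δ ≤ 6 / 16 * e * a ^ 2 := by
      have e1 : B * X ≤ B ^ 2 * a := by
        calc B * X ≤ B * (B * a) := by gcongr
          _ = B ^ 2 * a := by ring
      have e2 : B ^ 2 * (16 * δ) ≤ e * a := by
        have : B * (B ^ 2 * (16 * δ)) ≤ B * (e * a) := by
          calc B * (B ^ 2 * (16 * δ)) = 16 * B ^ 3 * δ := by ring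
            _ = e * X := hδ16
            _ ≤ e * (B * a) := by gcongr
            _ = B * (e * a) := by ring
        exact le_of_mul_le_mul_left this hB0
      calc 6 * B * X * δ = 6 * (B * X) * δ := by ring
        _ ≤ 6 * (B ^ 2 * a) * δ := by gcongr
        _ = 6 / 16 * a * (B ^ 2 * (16 * δ)) := by ring
        _ ≤ 6 / 16 * a * (e * a) := by gcongr
        _ = 6 / 16 * e * a ^ 2 := by ring
    have g3 : e * a ≤ a := by
      have := mul_le_mul_of_nonneg_right he1 ha.le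
      linarith
    have g4 : 15 / 16 * a ≤ a' := by linarith
    have g5 : (15 / 16 * a) ^ 2 ≤ a' ^ 2 := pow_le_pow_left₀ (by positivity) g4 2
    have g6 : 2 * e * (15 / 16 * a) ^ 2 ≤ 2 * e * a' ^ 2 := by gcongr
    have e3 : 2 * e * (15 / 16 * a) ^ 2 = 450 / 256 * (e * a ^ 2) := by ring
    have e4 : 6 / 16 * e * a ^ 2 = 6 / 16 * (e * a ^ 2) := by ring
    have g7 : 0 < e * a ^ 2 := by positivity
    rw [abs_le]
    constructor <;> linarith [k5.1, k5.2, hdd.1, hdd.2]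

end Pool.Agent.Helper92.AG
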