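import Pool.Agent.Helper92.AG.Defs
import Pool.Agent.Helper86.AC.V

/-!
# AG-V1: chart 1 (fixed direction, `s κ ≥ κ₀`): the change of variables `(y, T, x) ↦ A`, both signs

For `s = -1` the reflection `A₄ ↦ 2 A₃²/A₂ - A₄` changes the sign of `A₃² - A₂ A₄`.
-/

open MeasureTheory Real Set Filter Topology

set_option autoImplicit false

namespace Pool.Agent.Helper92.AG

open Pool.Agent.Helper22.AE
open Pool.Agent.Helper60.LT (Fr Tf xf yf df vf fr fr_coord fr_meas int_fr sl Cv Hom)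
open Pool.Agent.Helper60.QL (R3 OM)
open Pool.Agent.Helper48.QL (lint3 OM_meas)
open Pool.Agent.Helper3.AC
open Pool.Agent.Helper86.AC (Pr gA gA_meas int_fix up_dir lo_dir UP_meas UP_pos OM_bd' jA)

theorem exists_Pr1 {c₁ B₀ κ₀ : ℝ} (hc : 0 < c₁) (hB₀ : 1 ≤ B₀) (hκ : 0 < κ₀) : ∃ M : ℝ, 1 ≤ M ∧ ∀ h : ℝ × ℝ → ℝ, HG c₁ B₀ h →
    ∀ s : ℝ, (s = 1 ∨ s = -1) → ∀ θ, κ₀ ≤ s * ka h θ → Pr M (p2 h θ) (be h θ) (s * ka h θ) := by
  have hi : 0 < 1 / c₁ := by positivity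
  have hk : 0 < 1 / κ₀ := by positivity
  have hb : 0 < B₀ := by linarith
  refine ⟨B₀ + 1 / c₁ + 1 / κ₀ + B₀ / c₁ + (B₀ / c₁) ^ 2, ?_, fun h hh s hs θ hθ => ?_⟩
  · have h1 : 0 < B₀ / c₁ := by positivity
    have h2 : 0 ≤ (B₀ / c₁) ^ 2 := by positivity
    linarith
  have h1 : 0 < B₀ / c₁ := by positivity
  have h2 : 0 ≤ (B₀ / c₁) ^ 2 := by positivity
  obtain ⟨M, hM⟩ : ∃ M, M = B₀ + 1 / c₁ + 1 / κ₀ + B₀ / c₁ + (B₀ / c₁) ^ 2 := ⟨_, rfl⟩
  rw [← hM]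
  have hcv := hh.hom.cv θ
  have z : |(0 : ℝ)| ≤ 1 := by norm_num
  have g1 : c₁ ≤ p2 h θ := hcv.lo 0 z
  have g2 : |p2 h θ| ≤ B₀ := hcv.d2 0 z
  have g3 : |p3 h θ| ≤ B₀ := hcv.d3 0 z
  have g4 : |p4 h θ| ≤ B₀ := hcv.d4 0 z
  have hq0 : 0 < p2 h θ := by linarith
  have hbe : |be h θ| ≤ B₀ / c₁ := by
    unfold be
    rw [abs_div, abs_of_pos (show 0 < 3 * p2 h θ by positivity), div_le_div_iff₀ (by positivity) hc]
    calc |p3 h θ| * c₁ ≤ B₀ * (p2 h θ) := by gcongr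
      _ ≤ B₀ * (3 * p2 h θ) := by
        have : 0 < B₀ * p2 h θ := by positivity
        linarith
  have hM0 : 0 ≤ M := by linarith
  have inv : ∀ x d : ℝ, 0 < d → 1 / d ≤ M → d ≤ x → 1 ≤ M * x := by
    intro x d hd hdM hx
    calc 1 = 1 / d * d := by field_simp
      _ ≤ M * x := by gcongr
  refine ⟨by linarith, hq0, by linarith, ?_, inv _ c₁ hc (by linarith) g1, by linarith, ?_, inv _ κ₀ hκ (by linarith) hθ⟩
  · have := le_abs_self (p2 h θ)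
    linarith
  · have h4 : |p4 h θ / (12 * p2 h θ)| ≤ B₀ / c₁ := by
      rw [abs_div, abs_of_pos (show 0 < 12 * p2 h θ by positivity), div_le_div_iff₀ (by positivity) hc]
      calc |p4 h θ| * c₁ ≤ B₀ * (p2 h θ) := by gcongr
        _ ≤ B₀ * (12 * p2 h θ) := by
          have : 0 < B₀ * p2 h θ := by positivity
          linarith
    have h5 : be h θ ^ 2 ≤ (B₀ / c₁) ^ 2 := by
      rw [← sq_abs]
      exact pow_le_pow_left₀ (abs_nonneg _) hbe 2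
    have h7 : |ka h θ| ≤ (B₀ / c₁) ^ 2 + B₀ / c₁ := by
      unfold ka
      calc |be h θ ^ 2 - p4 h θ / (12 * p2 h θ)| ≤ |be h θ ^ 2| + |p4 h θ / (12 * p2 h θ)| := abs_sub _ _
        _ ≤ (B₀ / c₁) ^ 2 + B₀ / c₁ := by
          rw [abs_of_nonneg (sq_nonneg _)]
          linarith
    have h8 : s * ka h θ ≤ |ka h θ| := by
      rcases hs with rfl | rfl
      · rw [one_mul]
        exact le_abs_self _
      · rw [neg_one_mul]
        exact neg_le_abs _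
    linarith

/-- for positive determinants -/
theorem Rt_pos {F : Fr → ENNReal} (h0 : ∀ f, df f ≤ 0 → F f = 0) (θ : ℝ) :
    Rt F θ = ∫⁻ y in Ioi (0 : ℝ), ∫⁻ T in Ioi (0 : ℝ), ∫⁻ x, ENNReal.ofReal (T ^ 3) * F (fr θ y T x) := by
  unfold Rt
  rw [← lintegral_indicator measurableSet_Ioi]
  refine lintegral_congr fun y => ?_
  by_cases hy : 0 < y
  · rw [indicator_of_mem (show y ∈ Ioi (0 : ℝ) from hy)]
  · rw [indicator_of_notMem (show y ∉ Ioi (0 : ℝ) from hy), ← nonpos_iff_eq_zero, ← lintegral_zero (μ := volume.restrict (Ioi (0 : ℝ)))]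
    refine setLIntegral_mono' measurableSet_Ioi fun T hT => ?_
    rw [nonpos_iff_eq_zero]
    have h1 : ∀ x, ENNReal.ofReal (T ^ 3) * F (fr θ y T x) = 0 := by
      intro x
      have hT' : 0 < T := hT
      obtain ⟨-, -, -, e4⟩ := fr_coord (θ := θ) (y := y) (T := T) (x := x) hT'
      rw [h0, mul_zero]
      rw [e4]
      have : 0 < T ^ 2 := by positivity
      nlinarith
    simp only [h1, lintegral_zero]

/-- the reflection `A₄ ↦ 2 A₃²/A₂ - A₄` -/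
noncomputable def rfl3 (A : R3) : R3 := (A.1, A.2.1, 2 * A.2.1 ^ 2 / A.1 - A.2.2)

theorem rfl3_meas : Measurable rfl3 := by
  unfold rfl3
  fun_prop

theorem int_rfl3 {g : R3 → ENNReal} (hg : Measurable g) : ∫⁻ A, g (rfl3 A) = ∫⁻ A, g A := by
  rw [lint3 (Φ := fun A => g (rfl3 A)) (hg.comp rfl3_meas), lint3 hg]
  refine lintegral_congr fun a => lintegral_congr fun b => ?_
  exact lintegral_sub_left_eq_self (fun c => g (a, b, c)) (2 * b ^ 2 / a)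

theorem gA_rfl3 (θ q β κ : ℝ) {A : R3} (ha : A.1 ≠ 0) : gA θ q β κ (rfl3 A) = gA θ q β (-κ) A := by
  obtain ⟨a, b, c⟩ := A
  have ha' : a ≠ 0 := ha
  have e : yA κ (rfl3 (a, b, c)) = yA (-κ) (a, b, c) := by
    unfold yA rfl3
    simp only
    congr 1
    rcases eq_or_ne κ 0 with rfl | hκ
    · simp
    field_simp
    ring
  unfold gA TA xA
  rw [e]
  rfl

theorem rfl3_OM {s B X : ℝ} (hB : 1 ≤ B) (hX : 0 < X) {A : R3} (hA : A ∈ OS s B X) : rfl3 A ∈ OS (-s) (3 * B ^ 3) X := by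
  obtain ⟨a, b, c⟩ := A
  obtain ⟨h1, h2, h3, h4, h5⟩ := hA
  simp only at h1 h2 h3 h4 h5
  have hB0 : 0 < B := by linarith
  have ha : 0 < a := by
    by_contra hcon
    push Not at hcon
    have : B * a ≤ 0 := mul_nonpos_of_nonneg_of_nonpos hB0.le hcon
    linarith
  have hB3 : B ≤ B ^ 3 := le_self_pow₀ hB (by norm_num)
  have hBX : B * X ≤ B ^ 3 * X := by gcongr
  have hBX0 : 0 ≤ B ^ 3 * X := by positivity
  have e3 : 3 * B ^ 3 * X = 3 * (B ^ 3 * X) := by ring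
  refine ⟨?_, ?_, ?_, ?_, ?_⟩
  · show X ≤ 3 * B ^ 3 * a
    calc X ≤ B * a := h1
      _ ≤ 3 * B ^ 3 * a := by
        gcongr
        have : 0 ≤ B ^ 3 := by positivity
        linarith
  · show a ≤ _
    linarith
  · show |b| ≤ _
    linarith
  · show |2 * b ^ 2 / a - c| ≤ _
    have hb : 2 * b ^ 2 / a ≤ 2 * B ^ 3 * X := by
      rw [div_le_iff₀ ha]
      calc 2 * b ^ 2 = 2 * |b| ^ 2 := by rw [sq_abs]
        _ ≤ 2 * (B * X) ^ 2 := by gcongr
        _ = 2 * B ^ 2 * X * X := by ring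
        _ ≤ 2 * B ^ 2 * X * (B * a) := by gcongr
        _ = 2 * B ^ 3 * X * a := by ring
    have hb0 : 0 ≤ 2 * b ^ 2 / a := by positivity
    have h6 := abs_le.1 h4
    rw [abs_le]
    constructor <;> linarith [h6.1, h6.2]
  · show X ^ 2 ≤ 3 * B ^ 3 * (-s * (b ^ 2 - (2 * b ^ 2 / a - c) * a))
    have e : -s * (b ^ 2 - (2 * b ^ 2 / a - c) * a) = s * (b ^ 2 - c * a) := by
      field_simp
      ring
    rw [e]
    have h6 : 0 ≤ s * (b ^ 2 - c * a) := by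
      by_contra hcon
      push Not at hcon
      have : B * (s * (b ^ 2 - c * a)) ≤ 0 := mul_nonpos_of_nonneg_of_nonpos hB0.le hcon.le
      have : 0 < X ^ 2 := by positivity
      linarith
    calc X ^ 2 ≤ B * (s * (b ^ 2 - c * a)) := h5
      _ ≤ 3 * B ^ 3 * (s * (b ^ 2 - c * a)) := by
        gcongr
        have : 0 ≤ B ^ 3 := by positivity
        linarith

theorem OS_meas (s B X : ℝ) : MeasurableSet (OS s B X) := by
  have h1 : Measurable (fun A : R3 => B * A.1) := by fun_prop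
  have h2 : Measurable (fun A : R3 => A.1) := by fun_prop
  have h3 : Measurable (fun A : R3 => |A.2.1|) := by fun_prop
  have h4 : Measurable (fun A : R3 => |A.2.2|) := by fun_prop
  have h5 : Measurable (fun A : R3 => B * (s * (A.2.1 ^ 2 - A.2.2 * A.1))) := by fun_prop
  exact (measurableSet_le measurable_const h1).inter ((measurableSet_le h2 measurable_const).inter
    ((measurableSet_le h3 measurable_const).inter ((measurableSet_le h4 measurable_const).inter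
    (measurableSet_le measurable_const h5))))

theorem OS_one (B X : ℝ) : OS 1 B X = OM B X := by
  ext A
  simp only [OS, OM, mem_ofPred_eq, one_mul]

theorem OS_fst {s B X : ℝ} (hX : 0 < X) {A : R3} (hA : A ∈ OS s B X) : A.1 ≠ 0 := by
  obtain ⟨h1, -⟩ := hA
  rintro h
  rw [h] at h1
  linarith

/-- the integral over the region for the sign `s` and the region for the sign `-s` -/
theorem int_OS {s B X : ℝ} (hB : 1 ≤ B) (hX : 0 < X) {F : Fr → ENNReal} (hF : Measurable F) (θ q β κ : ℝ) :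
    ∫⁻ A in OS s B X, F (gA θ q β κ A) ≤ ∫⁻ A in OS (-s) (3 * B ^ 3) X, F (gA θ q β (-κ) A) := by
  have hg : Measurable (fun A => (OS (-s) (3 * B ^ 3) X).indicator (fun A => F (gA θ q β (-κ) A)) A) :=
    (hF.comp (gA_meas θ q β (-κ))).indicator (OS_meas _ _ _)
  rw [← lintegral_indicator (OS_meas _ _ _), ← lintegral_indicator (OS_meas _ _ _), ← int_rfl3 hg]
  refine lintegral_mono fun A => ?_
  by_cases hA : A ∈ OS s B X
  · rw [indicator_of_mem hA]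
    simp only
    rw [indicator_of_mem (rfl3_OM hB hX hA), gA_rfl3 _ _ _ _ (OS_fst hX hA), neg_neg]
  · rw [indicator_of_notMem hA]
    exact zero_le

theorem OS_mono {s B B' X : ℝ} (hB : 0 ≤ B) (h : B ≤ B') (hX : 0 < X) : OS s B X ⊆ OS s B' X := by
  rintro A ⟨h1, h2, h3, h4, h5⟩
  have hBX : B * X ≤ B' * X := by gcongr
  have ha : 0 ≤ A.1 := by
    by_contra hcon
    push Not at hcon
    have : B * A.1 ≤ 0 := mul_nonpos_of_nonneg_of_nonpos hB hcon.le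
    linarith
  have hd : 0 ≤ s * (A.2.1 ^ 2 - A.2.2 * A.1) := by
    by_contra hcon
    push Not at hcon
    have : B * (s * (A.2.1 ^ 2 - A.2.2 * A.1)) ≤ 0 := mul_nonpos_of_nonneg_of_nonpos hB hcon.le
    have : 0 < X ^ 2 := by positivity
    linarith
  have g1 : B * A.1 ≤ B' * A.1 := by gcongr
  have g2 : B * (s * (A.2.1 ^ 2 - A.2.2 * A.1)) ≤ B' * (s * (A.2.1 ^ 2 - A.2.2 * A.1)) := by gcongr
  exact ⟨by linarith, by linarith, by linarith, by linarith, by linarith⟩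

theorem up1 {c₁ B₀ B κ₀ : ℝ} (hc : 0 < c₁) (hB₀ : 1 ≤ B₀) (hB : 1 ≤ B) (hκ : 0 < κ₀) : ∃ B' C : ℝ, B ≤ B' ∧ 1 ≤ C ∧
    ∀ h : ℝ × ℝ → ℝ, HG c₁ B₀ h → ∀ s : ℝ, (s = 1 ∨ s = -1) → ∀ θ : ℝ, κ₀ ≤ s * ka h θ → ∀ (X : ℝ) (F : Fr → ENNReal), 0 < X → Measurable F →
    Rt ((UP B X).indicator F) θ ≤ ENNReal.ofReal (C * X) * ∫⁻ A in OS s B' X, F (fA h θ A) := by
  obtain ⟨M, hM, hPr⟩ := exists_Pr1 hc hB₀ hκ
  have hM0 : 0 < M := by linarith
  have hB0 : 0 < B := by linarith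
  have hM3 : 1 ≤ M ^ 3 := one_le_pow₀ hM
  have hM4 : 1 ≤ M ^ 4 := one_le_pow₀ hM
  have hB22 : B ≤ B ^ 22 := le_self_pow₀ hB (by norm_num)
  obtain ⟨D, hD⟩ : ∃ D, D = 65536 * M ^ 3 * B ^ 22 := ⟨_, rfl⟩
  have hDB : B ≤ D := by
    rw [hD]
    calc B ≤ 1 * 1 * B ^ 22 := by linarith
      _ ≤ 65536 * M ^ 3 * B ^ 22 := by
        gcongr
        norm_num
  have hD1 : 1 ≤ D := by linarith
  have hD3 : D ≤ 3 * D ^ 3 := by
    have : D ≤ D ^ 3 := le_self_pow₀ hD1 (by norm_num)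
    linarith
  refine ⟨3 * D ^ 3, 131072 * M ^ 4 * B ^ 22, by linarith, ?_, fun h hh s hs θ hθ X F hX hF => ?_⟩
  · calc (1 : ℝ) ≤ 1 * 1 * 1 := by norm_num
      _ ≤ 131072 * M ^ 4 * B ^ 22 := by
        have : 1 ≤ B ^ 22 := one_le_pow₀ hB
        gcongr
        norm_num
  have hP := hPr h hh s hs θ hθ
  have hind : Measurable ((UP B X).indicator F) := hF.indicator (UP_meas _ _)
  rw [Rt_pos (fun f hf => indicator_of_notMem (fun hU => absurd (UP_pos hB0 hX hU) (not_lt.2 hf)) _) θ,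
    int_fix hind θ (be h θ) hP.q0 hP.κ0]
  refine (up_dir hP hB hX θ hF).trans ?_
  refine mul_le_mul_right ?_ _
  rw [← hD, ← OS_one]
  rcases hs with rfl | rfl
  · rw [one_mul]
    exact lintegral_mono_set (OS_mono (by linarith) hD3 hX)
  · refine (int_OS (s := 1) hD1 hX hF θ (p2 h θ) (be h θ) (-1 * ka h θ)).trans (le_of_eq ?_)
    rw [neg_one_mul, neg_neg]
    rfl

theorem lo1 {c₁ B₀ B κ₀ : ℝ} (hc : 0 < c₁) (hB₀ : 1 ≤ B₀) (hB : 1 ≤ B) (hκ : 0 < κ₀) : ∃ B' C : ℝ, B ≤ B' ∧ 1 ≤ C ∧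
    ∀ h : ℝ × ℝ → ℝ, HG c₁ B₀ h → ∀ s : ℝ, (s = 1 ∨ s = -1) → ∀ θ : ℝ, κ₀ ≤ s * ka h θ → ∀ (X : ℝ) (F : Fr → ENNReal), 0 < X → Measurable F →
    ENNReal.ofReal X * ∫⁻ A in OS s B X, F (fA h θ A) ≤ ENNReal.ofReal C * Rt ((UP B' X).indicator F) θ := by
  obtain ⟨M, hM, hPr⟩ := exists_Pr1 hc hB₀ hκ
  have hM0 : 0 < M := by linarith
  have hB0 : 0 < B := by linarith
  have hM5 : 1 ≤ M ^ 5 := one_le_pow₀ hM
  have hM13 : 1 ≤ M ^ 13 := one_le_pow₀ hM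
  obtain ⟨D, hD⟩ : ∃ D, D = 3 * B ^ 3 := ⟨_, rfl⟩
  have hDB : B ≤ D := by
    have : B ≤ B ^ 3 := le_self_pow₀ hB (by norm_num)
    rw [hD]
    linarith
  have hD1 : 1 ≤ D := by linarith
  have hD12 : D ≤ D ^ 12 := le_self_pow₀ hD1 (by norm_num)
  have hD19 : 1 ≤ D ^ 19 := one_le_pow₀ hD1
  refine ⟨10 * M ^ 5 * D ^ 12, 64 * M ^ 13 * D ^ 19, ?_, ?_, fun h hh s hs θ hθ X F hX hF => ?_⟩
  · calc B ≤ 1 * 1 * D ^ 12 := by linarith
      _ ≤ 10 * M ^ 5 * D ^ 12 := by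
        gcongr
        norm_num
  · calc (1 : ℝ) ≤ 1 * 1 * 1 := by norm_num
      _ ≤ 64 * M ^ 13 * D ^ 19 := by
        gcongr
        norm_num
  have hP := hPr h hh s hs θ hθ
  have hb0 : 0 < 10 * M ^ 5 * D ^ 12 := by positivity
  have hind : Measurable ((UP (10 * M ^ 5 * D ^ 12) X).indicator F) := hF.indicator (UP_meas _ _)
  rw [Rt_pos (fun f hf => indicator_of_notMem (fun hU => absurd (UP_pos hb0 hX hU) (not_lt.2 hf)) _) θ,
    int_fix hind θ (be h θ) hP.q0 hP.κ0]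
  refine le_trans ?_ (lo_dir hP hD1 hX θ hF)
  refine mul_le_mul_right ?_ _
  rw [← OS_one]
  rcases hs with rfl | rfl
  · rw [one_mul]
    exact lintegral_mono_set (OS_mono (by linarith) hDB hX)
  · refine (int_OS (s := -1) hB hX hF θ (p2 h θ) (be h θ) (ka h θ)).trans (le_of_eq ?_)
    rw [neg_one_mul, neg_neg, hD]

end Pool.Agent.Helper92.AG
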